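import Pool.Agent.Lib.MP_0087d5_lc.FN.Stmt

/-!
# Few perfect matchings or few nice cycles
-/

set_option autoImplicit false

namespace Pool.Agent.UN

/-- `H` has a perfect matching, and it has at most `2 ^ k` perfect matchings or at most `N` nice cycles. -/
def Few {V : Type*} (H : SimpleGraph V) (k N : ℕ) : Prop :=
  (∃ M : H.Subgraph, M.IsPerfectMatching) ∧
    (Nat.card {M : H.Subgraph // M.IsPerfectMatching} ≤ 2 ^ k ∨ (FNC.niceCycles H).ncard ≤ N)

end Pool.Agent.UN
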