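import Pool.Agent.Lib.MP_0087d5_lc.UN.Near
import Pool.Agent.Lib.MP_0087d5_lc.FN.Rank

/-!
# Few perfect matchings after deletion of few vertices
-/

set_option autoImplicit false
set_option linter.all false

namespace Pool.Agent.UN

open Relation Pool.Agent.PMNC Pool.Agent.UPM Pool.Agent.AUG Pool.Agent.LF Pool.Agent.FNC Pool.Agent.FRC.Uni

/-- formulas as programs -/
theorem ncp_of_inNC {P : ∀ n : ℕ, SimpleGraph (Fin n) → Prop} (h : PMNC.InNC P) :
    NCP GS GB Empty (fun n G _ => P n G) := by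
  obtain ⟨φ, hφ⟩ := h
  have h1 := Br.br φ GS GB Empty inferInstance (fun n G => G)
    (fun n G _ => fun _ _ => False) (NCP.base inferInstance GB.adj)
    (fun i r => NCP.const inferInstance False)
  have h2 := NCP.comap (κ := Empty) inferInstance
    (fun o : Empty ⊕ Fin 0 => match o with
      | Sum.inl j => j
      | Sum.inr j => Fin.elim0 j) h1
  refine h2.congr fun n G x => ?_
  rw [hφ]
  have : (Fin.elim0 : Fin 0 → Fin n) = fun j => (x (Fin.elim0 j) : Fin n) :=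
    funext fun j => Fin.elim0 j
  rw [this]

/-- the test for general graphs accepts if some perfect matching is isolated by its edges on a small set of vertices and by weights -/
theorem forcW_inNC (c : ℕ) : ∃ P : ∀ n : ℕ, SimpleGraph (Fin n) → Prop, PMNC.InNC P ∧
    (∀ n G, P n G → HasPM G) ∧
    ∀ (n : ℕ) (G : SimpleGraph (Fin n)) (m₀ : ℕ) (X : Finset (Fin n)) (f : Fin n → Fin n), 2 ≤ n → 1 ≤ m₀ → m₀ < n ^ (2 * c + 8) →
      ForcW G (wE m₀) X f → X.card ≤ 2 * Nat.log 2 n ^ c → P n G := by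
  obtain ⟨S, i1, i2, hS⟩ := exists_SS (2 * c + 30)
  refine ⟨fun n G => (n < 2 ∧ HasPM G) ∨ (2 ≤ n ∧ ∃ e : S n × (S n × (S n × S n)), acc c G e), ?_, ?_, ?_⟩
  · refine inNC_small (Q := fun n G => ∃ e : S n × (S n × (S n × S n)), acc c G e) ?_ ?_
    · refine DefP.ex (F := fun n => S n × (S n × (S n × S n))) ?_
      exact DefP.comp (F := fun n => S n × (S n × (S n × S n)))
        (f := fun n (y : Unit × (S n × (S n × (S n × S n)))) => y.2)
        (defP_acc (by omega) c) (Tm.snd Tm.id)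
    · intro n G hn
      constructor
      · rintro (h | h)
        · omega
        · exact h.2
      · exact fun h => Or.inr ⟨hn, h⟩
  · rintro n G (h | h)
    · exact h.2
    · obtain ⟨hn, e, he⟩ := h
      exact acc_sound hn G he
  · intro n G m₀ X f hn h1 h2 hF hX
    exact Or.inr ⟨hn, acc_complete (by omega) hn G h1 h2 hF hX⟩

variable {n : ℕ} {G : SimpleGraph (Fin n)} {X : Finset (Fin n)}

/-- the union of two sets -/
theorem forc_union {k : ℕ} (h1 : ∃ M : (G.induce {v | v ∈ X}).Subgraph, M.IsPerfectMatching)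
    (h2 : ∃ M : (G.induce {v | v ∉ X}).Subgraph, M.IsPerfectMatching)
    (h3 : Nat.card {M : (G.induce {v | v ∉ X}).Subgraph // M.IsPerfectMatching} ≤ 2 ^ k) :
    ∃ (X' : Finset (Fin n)) (f : Fin n → Fin n), Forc G X' f ∧ X'.card ≤ X.card + 2 * k := by
  classical
  obtain ⟨M1, hM1⟩ := h1
  obtain ⟨a, ha, -⟩ := exists_fun M1 hM1
  obtain ⟨T, b, hT, hTc⟩ := exists_forc_of_card (G.induce {v | v ∉ X}) k h2 h3
  have hb := hT.pm
  set F : Fin n → Fin n := fun v =>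
    if h : v ∈ X then (a ⟨v, h⟩ : Fin n) else (b ⟨v, h⟩ : Fin n) with hF
  have hFa : ∀ v (h : v ∈ X), F v = (a ⟨v, h⟩ : Fin n) := fun v h => dif_pos h
  have hFb : ∀ v (h : v ∉ X), F v = (b ⟨v, h⟩ : Fin n) := fun v h => dif_neg h
  have hFX : ∀ v ∈ X, F v ∈ X := fun v h => by
    rw [hFa v h]
    exact (a ⟨v, h⟩).2
  have hFN : ∀ v, v ∉ X → F v ∉ X := fun v h => by
    rw [hFb v h]
    exact (b ⟨v, h⟩).2
  have hPM : PMf G F := by
    refine ⟨fun v => ?_, fun v => ?_⟩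
    · by_cases h : v ∈ X
      · rw [hFa (F v) (hFX v h)]
        have h4 : (⟨F v, hFX v h⟩ : {v | v ∈ X}) = a ⟨v, h⟩ := Subtype.ext (hFa v h)
        rw [h4, ha.invol]
      · rw [hFb (F v) (hFN v h)]
        have h4 : (⟨F v, hFN v h⟩ : {v | v ∉ X}) = b ⟨v, h⟩ := Subtype.ext (hFb v h)
        rw [h4, hb.invol]
    · by_cases h : v ∈ X
      · rw [hFa v h]
        exact ha.adj ⟨v, h⟩
      · rw [hFb v h]
        exact hb.adj ⟨v, h⟩
  set T' : Finset (Fin n) := T.image (fun v : {v | v ∉ X} => (v : Fin n)) with hT'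
  have hmem : ∀ v (h : v ∉ X), v ∈ T' ↔ (⟨v, h⟩ : {v | v ∉ X}) ∈ T := by
    intro v h
    rw [hT', Finset.mem_image]
    constructor
    · rintro ⟨w, hw, rfl⟩
      exact hw
    · intro hv
      exact ⟨_, hv, rfl⟩
  refine ⟨X ∪ T', F, ⟨hPM, fun v hv => ?_, fun m' hm' hX' => ?_⟩, ?_⟩
  · by_cases h : v ∈ X
    · exact Finset.mem_union_left _ (hFX v h)
    · have hv' : v ∈ T' := (Finset.mem_union.1 hv).resolve_left h
      refine Finset.mem_union_right _ ?_
      rw [hmem _ (hFN v h)]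
      have h4 : (⟨F v, hFN v h⟩ : {v | v ∉ X}) = b ⟨v, h⟩ := Subtype.ext (hFb v h)
      rw [h4]
      exact hT.mem _ ((hmem v h).1 hv')
  · have hXm : ∀ v ∈ X, m' v = F v := fun v hv => hX' v (Finset.mem_union_left _ hv)
    have hN' : ∀ v, v ∉ X → m' v ∉ X := by
      intro v hv h4
      have h5 := hFX _ h4
      rw [← hXm _ h4, hm'.invol] at h5
      exact hv h5
    set g : {v | v ∉ X} → {v | v ∉ X} := fun v => ⟨m' v, hN' v v.2⟩ with hg
    have hgP : PMf (G.induce {v | v ∉ X}) g :=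
      ⟨fun v => Subtype.ext (hm'.invol v), fun v => hm'.adj v⟩
    have hgb : g = b := by
      refine hT.uniq g hgP fun v hv => ?_
      apply Subtype.ext
      have h5 := hX' v (Finset.mem_union_right _ ((hmem v v.2).2 hv))
      rw [hFb v v.2] at h5
      exact h5
    funext v
    by_cases h : v ∈ X
    · exact hXm v h
    · rw [hFb v h, ← hgb]
  · refine (Finset.card_union_le _ _).trans ?_
    refine Nat.add_le_add_left ?_ _
    exact Finset.card_image_le.trans hTc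

theorem hasPM_of_parts (h1 : ∃ M : (G.induce {v | v ∈ X}).Subgraph, M.IsPerfectMatching)
    (h2 : ∃ M : (G.induce {v | v ∉ X}).Subgraph, M.IsPerfectMatching) : HasPM G := by
  classical
  obtain ⟨N, hN⟩ : ∃ N, Nat.card {M : (G.induce {v | v ∉ X}).Subgraph // M.IsPerfectMatching} ≤ 2 ^ N :=
    ⟨_, Nat.lt_two_pow_self.le⟩
  obtain ⟨X', f, hF, -⟩ := forc_union h1 h2 hN
  exact hasPM_iff.2 ⟨f, hF.pm.invol, hF.pm.adj⟩

/-- few perfect matchings: one is left after the deletion of few further vertices -/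
theorem exists_one {k : ℕ} (h2 : ∃ M : (G.induce {v | v ∉ X}).Subgraph, M.IsPerfectMatching)
    (h3 : Nat.card {M : (G.induce {v | v ∉ X}).Subgraph // M.IsPerfectMatching} ≤ 2 ^ k) :
    ∃ X' : Finset (Fin n), X'.card ≤ X.card + 2 * k ∧
      ∃ f : {v | v ∉ X'} → {v | v ∉ X'}, PMf (G.induce {v | v ∉ X'}) f ∧
        ∀ g, PMf (G.induce {v | v ∉ X'}) g → g = f := by
  classical
  obtain ⟨T, b, hT, hTc⟩ := exists_forc_of_card (G.induce {v | v ∉ X}) k h2 h3
  have hb := hT.pm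
  set T' : Finset (Fin n) := T.image (fun v : {v | v ∉ X} => (v : Fin n)) with hT'
  have hmem : ∀ v (h : v ∉ X), v ∈ T' ↔ (⟨v, h⟩ : {v | v ∉ X}) ∈ T := by
    intro v h
    rw [hT', Finset.mem_image]
    constructor
    · rintro ⟨w, hw, rfl⟩
      exact hw
    · intro hv
      exact ⟨_, hv, rfl⟩
  have hout : ∀ v, v ∉ X ∪ T' ↔ ∃ h : v ∉ X, (⟨v, h⟩ : {v | v ∉ X}) ∉ T := by
    intro v
    rw [Finset.mem_union, not_or]
    constructor
    · rintro ⟨h, h'⟩
      exact ⟨h, fun h4 => h' ((hmem v h).2 h4)⟩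
    · rintro ⟨h, h'⟩
      exact ⟨h, fun h4 => h' ((hmem v h).1 h4)⟩
  have hbT : ∀ v, v ∉ T → b v ∉ T := by
    intro v hv h4
    have h5 := hT.mem _ h4
    rw [hb.invol] at h5
    exact hv h5
  refine ⟨X ∪ T', ?_, ?_⟩
  · refine (Finset.card_union_le _ _).trans ?_
    refine Nat.add_le_add_left ?_ _
    exact Finset.card_image_le.trans hTc
  have hv1 : ∀ v : {v | v ∉ X ∪ T'}, (v : Fin n) ∉ X := fun v => ((hout v).1 v.2).1
  have hv2 : ∀ v : {v | v ∉ X ∪ T'}, (⟨v, hv1 v⟩ : {v | v ∉ X}) ∉ T := fun v => ((hout v).1 v.2).2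
  let f : {v | v ∉ X ∪ T'} → {v | v ∉ X ∪ T'} := fun v =>
    ⟨b ⟨v, hv1 v⟩, (hout _).2 ⟨(b ⟨v, hv1 v⟩).2, hbT _ (hv2 v)⟩⟩
  refine ⟨f, ⟨fun v => ?_, fun v => hb.adj ⟨v, hv1 v⟩⟩, fun g hg => ?_⟩
  · apply Subtype.ext
    show ((b ⟨(b ⟨v, hv1 v⟩ : {v | v ∉ X}), _⟩ : {v | v ∉ X}) : Fin n) = v
    have h4 : (⟨((b ⟨v, hv1 v⟩ : {v | v ∉ X}) : Fin n), (b ⟨v, hv1 v⟩).2⟩ : {v | v ∉ X}) = b ⟨v, hv1 v⟩ := rfl
    rw [h4, hb.invol]
  · -- extend `g` by `b`
    let g' : {v | v ∉ X} → {v | v ∉ X} := fun v =>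
      if h : v ∈ T then b v else ⟨g ⟨v, (hout _).2 ⟨v.2, h⟩⟩, hv1 _⟩
    have hg1 : ∀ v (h : v ∈ T), g' v = b v := fun v h => dif_pos h
    have hg2 : ∀ v (h : v ∉ T), g' v = ⟨g ⟨v, (hout _).2 ⟨v.2, h⟩⟩, hv1 _⟩ := fun v h => dif_neg h
    have hgP : PMf (G.induce {v | v ∉ X}) g' := by
      refine ⟨fun v => ?_, fun v => ?_⟩
      · by_cases h : v ∈ T
        · rw [hg1 v h, hg1 _ (hT.mem v h), hb.invol]
        · have h5 : g' v ∉ T := by
            rw [hg2 v h]
            exact hv2 _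
          rw [hg2 _ h5]
          apply Subtype.ext
          show ((g ⟨(g' v : {v | v ∉ X}), _⟩ : {v | v ∉ X ∪ T'}) : Fin n) = v
          have h6 : (⟨((g' v : {v | v ∉ X}) : Fin n), (hout _).2 ⟨(g' v).2, h5⟩⟩ : {v | v ∉ X ∪ T'}) =
              g ⟨v, (hout _).2 ⟨v.2, h⟩⟩ := by
            apply Subtype.ext
            show ((g' v : {v | v ∉ X}) : Fin n) = _
            rw [hg2 v h]
          rw [h6, hg.invol]
      · by_cases h : v ∈ T
        · rw [hg1 v h]
          exact hb.adj v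
        · rw [hg2 v h]
          exact hg.adj ⟨v, (hout _).2 ⟨v.2, h⟩⟩
    have h7 : g' = b := hT.uniq g' hgP fun v hv => hg1 v hv
    funext v
    apply Subtype.ext
    have h8 := hg2 ⟨v, hv1 v⟩ (hv2 v)
    rw [h7] at h8
    have h9 := congrArg (Subtype.val) h8
    exact h9.symm

/-- bipartite graphs with few perfect matchings after deletion of few vertices belong to the class `cls` -/
theorem cls_of_few {c : ℕ} (hn : 4 ≤ n) (hc : G.Colorable 2) (hG : HasPM G)
    (hXc : X.card ≤ 2 * Nat.log 2 n ^ c)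
    (h2 : ∃ M : (G.induce {v | v ∉ X}).Subgraph, M.IsPerfectMatching)
    (h3 : Nat.card {M : (G.induce {v | v ∉ X}).Subgraph // M.IsPerfectMatching} ≤ 2 ^ (Nat.log 2 n ^ c)) :
    cls (c + 3) (c + 7) n G := by
  classical
  obtain ⟨F, hFc, f', hf', hu'⟩ := exists_one h2 h3
  have h2' : ∃ M : (G.induce {v | v ∉ F}).Subgraph, M.IsPerfectMatching := by
    rw [exists_pm_iff]
    exact ⟨f', hf'.invol, hf'.adj⟩
  obtain ⟨k, hk, t, ht, hF⟩ := exists_t hG h2'
  obtain ⟨f, hf, hfb⟩ := ext_map ht hF (f' := f') ⟨hf'.invol, hf'.adj⟩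
  have hu : ∀ g, IsM (hg G t).Adj g → tw (wE 2) g = tw (wE 2) f → g = f := by
    intro g hg _
    obtain ⟨g', hg', hgg'⟩ := res_map hF hg
    have h5 := hu' g' ⟨hg'.1, hg'.2⟩
    funext v
    by_cases hv : v ∈ F
    · obtain ⟨p, rfl⟩ := (hF v).1 hv
      rw [hg_pair ht hg, hg_pair ht hf]
    · have e1 := hgg' ⟨v, hv⟩
      have e2 := hfb ⟨v, hv⟩
      rw [h5] at e1
      exact e1.symm.trans e2
  refine ⟨hc, 2, by omega, ?_, ?_⟩
  · calc 2 ≤ n := by omega
      _ = n ^ 1 := (pow_one n).symm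
      _ ≤ n ^ (c + 7) := Nat.pow_le_pow_right (by omega) (by omega)
  have hdet := adx_det_of_uniq (hg G t) hf hu
  have h3 : (adx (hg G t) (wE 2) (RatFunc.X : RatFunc ℚ)).rank = n := by
    have := Matrix.rank_of_isUnit (adx (hg G t) (wE 2) (RatFunc.X : RatFunc ℚ))
      ((Matrix.isUnit_iff_isUnit_det _).2 (isUnit_iff_ne_zero.2 hdet))
    rwa [Fintype.card_fin] at this
  have h4 := rank_near (adx (hg G t) (wE 2) (RatFunc.X : RatFunc ℚ))
    (adx G (wE 2) (RatFunc.X : RatFunc ℚ)) F (fun u hu v hv => by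
      unfold adx
      rw [Matrix.of_apply, Matrix.of_apply]
      have hu' := (out_iff hF).1 hu
      have hv' := (out_iff hF).1 hv
      by_cases h : G.Adj u v
      · rw [if_pos h, if_pos (show (hg G t).Adj u v from Or.inl ⟨h, hu', hv'⟩)]
      · rw [if_neg h, if_neg (fun h5 : (hg G t).Adj u v => by
          rcases h5 with h5 | ⟨_, p, h5, _⟩
          · exact h h5.1
          · exact hu' p h5)])
  have h5 : 2 ≤ Nat.log 2 n := by
    have : Nat.log 2 4 ≤ Nat.log 2 n := Nat.log_mono_right hn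
    have e : Nat.log 2 4 = 2 := by
      rw [show 4 = 2 ^ 2 from rfl, Nat.log_pow (by norm_num)]
    omega
  have h6 : 8 * (Nat.log 2 n) ^ c ≤ (Nat.log 2 n) ^ (c + 3) := by
    rw [pow_add, mul_comm]
    refine Nat.mul_le_mul_left _ ?_
    calc 8 = 2 ^ 3 := by norm_num
      _ ≤ Nat.log 2 n ^ 3 := Nat.pow_le_pow_left h5 3
  omega

end Pool.Agent.UN
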