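import Pool.Agent.Lib.MP_0087d5_lc.UN.Forc
import Pool.Agent.Lib.MP_0087d5_lc.UN.Few

/-!
# Graphs with few perfect matchings or few nice cycles after deletion of few vertices
-/

set_option autoImplicit false
set_option linter.all false

namespace Pool.Agent.UN

open Relation Pool.Agent.PMNC Pool.Agent.UPM Pool.Agent.AUG Pool.Agent.LF Pool.Agent.FNC Pool.Agent.FRC.Uni

open Classical in
/-- **The main theorem.** -/
theorem main (c : ℕ) : ∃ P : ∀ n : ℕ, SimpleGraph (Fin n) → Prop, UPM.InNC P ∧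
    (∀ (n : ℕ) (G : SimpleGraph (Fin n)), P n G → HasPM G) ∧
    (∀ (n : ℕ) (G : SimpleGraph (Fin n)) (X : Finset (Fin n)), X.card ≤ 2 * Nat.log 2 n ^ c →
      (∃ M : (G.induce {v | v ∈ X}).Subgraph, M.IsPerfectMatching) → Few (G.induce {v | v ∉ X}) (Nat.log 2 n ^ c) (n ^ c) → P n G) ∧
    (∀ (n : ℕ) (G : SimpleGraph (Fin n)), HasPM G →
      Nat.card {M : G.Subgraph // M.IsPerfectMatching} ≤ 2 ^ Nat.log 2 n ^ c → P n G) ∧
    (∀ (n : ℕ) (G : SimpleGraph (Fin n)) (X : Finset (Fin n)), HasPM G → G.Colorable 2 → X.card ≤ 2 * Nat.log 2 n ^ c →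
      Few (G.induce {v | v ∉ X}) (Nat.log 2 n ^ c) (n ^ c) → P n G) ∧
    (∀ (n : ℕ) (G : SimpleGraph (Fin n)) (X : Finset (Fin n)), HasPM G → X.card ≤ c →
      (∃ M : (G.induce {v | v ∉ X}).Subgraph, M.IsPerfectMatching) → (niceCycles (G.induce {v | v ∉ X})).ncard ≤ n ^ c → P n G) ∧
    (∀ (n : ℕ) (G : SimpleGraph (Fin n)), HasPM G → G.Colorable 2 →
      n ≤ (G.adjMatrix ℚ).rank + Nat.log 2 n ^ c → P n G) := by
  obtain ⟨P1, a1, a2, a3⟩ := forcW_inNC (c + 2)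
  set P0 : ∀ n : ℕ, SimpleGraph (Fin n) → Prop := fun n G => n ≤ 3 ∧ HasPM G with hP0
  set P2 : ∀ n : ℕ, SimpleGraph (Fin n) → Prop := fun n G => cls (c + 3) (c + 7) n G ∧ HasPM G with hP2
  set P5 : ∀ n : ℕ, SimpleGraph (Fin n) → Prop := fun n G => ∃ k : {k : Fin (c + 1) // 2 * k.val ≤ c}, T3 (c + 1) k.1 n G with hP5
  have h0 : PMNC.InNC P0 := inNC_of_defP (defP_small 3 (fun n G => HasPM G))
  have hlog : ∀ {n : ℕ}, 4 ≤ n → 2 ≤ Nat.log 2 n := by
    intro n hn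
    have : Nat.log 2 4 ≤ Nat.log 2 n := Nat.log_mono_right hn
    have e : Nat.log 2 4 = 2 := by
      rw [show 4 = 2 ^ 2 from rfl, Nat.log_pow (by norm_num)]
    omega
  have h4k : ∀ {n : ℕ}, 4 ≤ n → 4 * Nat.log 2 n ^ c ≤ Nat.log 2 n ^ (c + 2) := by
    intro n hn
    have h5 := hlog hn
    rw [pow_add, mul_comm]
    refine Nat.mul_le_mul_left _ ?_
    nlinarith
  refine ⟨fun n G => ((P0 n G ∨ P1 n G) ∨ P2 n G) ∨ P5 n G, ?_, ?_, ?_, ?_, ?_, ?_, ?_⟩
  · have h1 := ncp_of_inNC ((h0.or a1).or (cls_pm_inNC (c + 3) (c + 7)))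
    have h2 : NCP GS GB Empty (fun n G _ => P5 n G) :=
      NCP.exFin (J := {k : Fin (c + 1) // 2 * k.val ≤ c}) inferInstance fun k => q_T3 (c + 1) k.1
    exact inNC_of_NCP (NCP.or h1 h2)
  · rintro n G (((h | h) | h) | h)
    · exact h.2
    · exact a2 n G h
    · exact h.2
    · obtain ⟨k, hk⟩ := h
      exact T3_sound hk
  · intro n G X hX h1 h2
    rcases Nat.lt_or_ge n 4 with hn | hn
    · exact Or.inl (Or.inl (Or.inl ⟨by omega, hasPM_of_parts h1 h2.1⟩))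
    · refine Or.inl (Or.inl (Or.inr ?_))
      have hk := h4k hn
      rcases h2.2 with h3 | h3
      · obtain ⟨X', f, hF, hX'⟩ := forc_union h1 h2.1 h3
        refine a3 n G 1 X' f (by omega) le_rfl (Nat.one_lt_pow (by omega) (by omega)) (hF.forcW _) ?_
        omega
      · obtain ⟨m₀, f, h4, h5, hF⟩ := exists_forcW_nice (by omega) h1 h2.1 h3
        refine a3 n G m₀ X f (by omega) h4 (lt_of_lt_of_le h5 (Nat.pow_le_pow_right (by omega) (by omega))) hF ?_
        omega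
  · intro n G hG h
    rcases Nat.lt_or_ge n 4 with hn | hn
    · exact Or.inl (Or.inl (Or.inl ⟨by omega, hG⟩))
    · have hk := h4k hn
      obtain ⟨X, f, hX, hF⟩ := exists_forcW_card (G := G) hG h
      exact Or.inl (Or.inl (Or.inr (a3 n G 1 X f (by omega) le_rfl (Nat.one_lt_pow (by omega) (by omega)) hF (by omega))))
  · intro n G X hG hc hX h1
    rcases Nat.lt_or_ge n 4 with hn | hn
    · exact Or.inl (Or.inl (Or.inl ⟨by omega, hG⟩))
    · refine Or.inl (Or.inr ⟨?_, hG⟩)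
      rcases h1.2 with h2 | h2
      · exact cls_of_few hn hc hG hX h1.1 h2
      · obtain ⟨ha, m, hm1, hm2, hm3⟩ := cls_of_nice hn hc hG hX h1.1 h2
        refine ⟨ha, m, hm1, hm2, hm3.trans ?_⟩
        exact Nat.add_le_add_left (Nat.pow_le_pow_right (by have := hlog hn; omega) (by omega)) _
  · intro n G X hG hX h1 h2
    rcases Nat.lt_or_ge n 4 with hn | hn
    · exact Or.inl (Or.inl (Or.inl ⟨by omega, hG⟩))
    · obtain ⟨k, hk1, t, ht, hF⟩ := exists_t hG h1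
      exact Or.inr ⟨⟨⟨k, by omega⟩, by show 2 * k ≤ c; omega⟩, T3_complete (by omega) ht hF h1 h2 hG⟩
  · intro n G hG hc h
    rcases Nat.lt_or_ge n 4 with hn | hn
    · exact Or.inl (Or.inl (Or.inl ⟨by omega, hG⟩))
    · refine Or.inl (Or.inr ⟨?_, hG⟩)
      obtain ⟨ha, m, hm1, hm2, hm3⟩ := cls_of_rank G hc h
      refine ⟨ha, m, hm1, hm2.trans (Nat.pow_le_pow_right (by omega) (by omega)), hm3.trans ?_⟩
      exact Nat.add_le_add_left (Nat.pow_le_pow_right (by have := hlog hn; omega) (by omega)) _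

end Pool.Agent.UN
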