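import Pool.Agent.Lib.MP_0087d5_lc.UN.Uniq
import Pool.Agent.Lib.MP_0087d5_lc.ZNear

/-!
# Few nice cycles after deletion of few vertices: the tests
-/

set_option autoImplicit false
set_option linter.all false

namespace Pool.Agent.UN

open Relation Pool.Agent.PMNC Pool.Agent.UPM Pool.Agent.AUG Pool.Agent.LF Pool.Agent.FNC Pool.Agent.FRC.Uni

variable {n k c : ℕ} {G : SimpleGraph (Fin n)} {t : TT k → Fin n} {F : Finset (Fin n)}

/-- A perfect matching of `hg G t` is found and then augmented. -/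
def T3 (c k n : ℕ) (G : GS n) : Prop := ∃ p : PP c k → Fin n, inj p ∧
  IsPM (hg G (pT p)) (cMp G p) ∧
  ∀ x : Fin n, ∃ y : Fin n, ((augG n (st2 c k n G p).1)^[k] (st2 c k n G p).2).Adj x y

theorem q_T3 (c k : ℕ) : NCP GS GB Empty (fun n G _ => T3 c k n G) :=
  q_ex (NCP.and (q_inj c k) (NCP.and (q_isPM c k) (q_perf' c k)))

theorem T3_sound (h : T3 c k n G) : HasPM G := by
  obtain ⟨p, h1, h2, h3⟩ := h
  obtain ⟨f, hf, hM⟩ := p_spec h2
  exact (perf_iff hf hM).1 h3

theorem T3_complete (hn : 2 ≤ n) (ht : Function.Injective t) (hF : ∀ v, v ∈ F ↔ ∃ p, t p = v)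
    (h2 : ∃ M : (G.induce {v | v ∉ F}).Subgraph, M.IsPerfectMatching)
    (h3 : (niceCycles (G.induce {v | v ∉ F})).ncard ≤ n ^ c) (hG : HasPM G) : T3 (c + 1) k n G := by
  obtain ⟨m, a, f, hf, hC⟩ := exists_cM_nice hn ht hF h2 h3
  have hM : Is (mgp G (mkp t m a)) f := by
    refine is_fromRel hf ?_
    unfold cMp
    rw [pm_mkp, pa_mkp]
    exact hC
  refine ⟨mkp t m a, inj_iff.2 ht, ?_, ?_⟩
  · refine isPM_of (f := f) hf ?_
    unfold cMp
    rw [pm_mkp, pa_mkp]
    exact hC
  · exact (perf_iff hf hM).2 hG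

/-- If `G` and `G - F` have perfect matchings, then `F` is the range of some `t`. -/
theorem exists_t (hG : HasPM G) (h2 : ∃ M : (G.induce {v | v ∉ F}).Subgraph, M.IsPerfectMatching) :
    ∃ k, F.card = 2 * k ∧ ∃ t : TT k → Fin n, Function.Injective t ∧ ∀ v, v ∈ F ↔ ∃ p, t p = v := by
  classical
  obtain ⟨M, hM⟩ := h2
  have h1 := hM.even_card
  have h2 : Fintype.card {v | v ∉ F} = n - F.card := by
    have : Fintype.card {v : Fin n // v ∉ F} = n - F.card := by
      rw [Fintype.card_subtype_compl, Fintype.card_fin, Fintype.card_coe]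
    exact this
  rw [h2] at h1
  have h3 : F.card ≤ n := by
    have := F.card_le_univ
    rwa [Fintype.card_fin] at this
  have he : Even n := by
    obtain ⟨N, hN⟩ := hG
    have := hN.even_card
    rwa [Fintype.card_fin] at this
  have h4 : Even F.card := by
    rw [Nat.even_sub h3] at h1
    exact h1.1 he
  obtain ⟨k, hk⟩ := h4
  have h5 : Fintype.card (TT k) = Fintype.card F := by
    rw [Fintype.card_coe, hk]
    simp
    omega
  let e : TT k ≃ F := Fintype.equivOfCardEq h5
  refine ⟨k, by omega, fun p => e p, ?_, ?_⟩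
  · intro p q h
    exact e.injective (Subtype.ext h)
  · intro v
    constructor
    · intro hv
      exact ⟨e.symm ⟨v, hv⟩, by simp⟩
    · rintro ⟨p, rfl⟩
      exact (e p).2

open Polynomial in
/-- the weighted adjacency matrix is nonsingular, if only one perfect matching has the least weight -/
theorem adx_det_of_uniq (H : SimpleGraph (Fin n)) {m : ℕ} {f : Fin n → Fin n} (hf : IsM H.Adj f)
    (hu : ∀ g, IsM H.Adj g → tw (wE m) g = tw (wE m) f → g = f) :
    (adx H (wE m) (RatFunc.X : RatFunc ℚ)).det ≠ 0 := by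
  classical
  have h6 := detW_of_unique (A := H.Adj) (w := wE m) (fun x y h => h.symm) (wE_comm m)
    (a := tw (wE m) f) ⟨f, ⟨hf, rfl⟩, fun g hg => hu g hg.1 hg.2⟩
  have h7 : (mxw H.Adj (wE m)).det ≠ 0 := by
    intro hc
    rw [hc, map_zero] at h6
    exact absurd h6 (by decide)
  let φ : ℤ[X] →+* YS := Polynomial.eval₂RingHom (Int.castRingHom YS) PowerSeries.X
  have h8 : φ.mapMatrix (adx H (wE m) (X : ℤ[X])) = mxw H.Adj (wE m) := by
    ext1 u v
    unfold adx mxw
    simp only [RingHom.mapMatrix_apply, Matrix.map_apply, Matrix.of_apply]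
    by_cases h : H.Adj u v
    · rw [if_pos h, if_pos h, map_pow]
      congr 1
      exact Polynomial.eval₂_X _ _
    · rw [if_neg h, if_neg h, map_zero]
  have h9 : (adx H (wE m) (X : ℤ[X])).det ≠ 0 := by
    intro hc
    apply h7
    rw [← h8, ← RingHom.map_det, hc, map_zero]
  have h10 : tRF.mapMatrix (adx H (wE m) (X : ℤ[X])) = adx H (wE m) (RatFunc.X : RatFunc ℚ) := by
    ext1 u v
    unfold adx
    simp only [RingHom.mapMatrix_apply, Matrix.map_apply, Matrix.of_apply]
    by_cases h : H.Adj u v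
    · rw [if_pos h, if_pos h, map_pow, tRF_X]
    · rw [if_neg h, if_neg h, map_zero]
  rw [← h10, ← RingHom.map_det]
  intro hc
  exact h9 (tRF_inj (by rw [hc, map_zero]))

/-- bipartite graphs with few nice cycles after deletion of few vertices belong to the class `cls` -/
theorem cls_of_nice (hn : 4 ≤ n) (hc : G.Colorable 2) (hG : HasPM G)
    (hFc : F.card ≤ 2 * Nat.log 2 n ^ c)
    (h2 : ∃ M : (G.induce {v | v ∉ F}).Subgraph, M.IsPerfectMatching)
    (h3 : (niceCycles (G.induce {v | v ∉ F})).ncard ≤ n ^ c) :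
    cls (c + 2) (c + 7) n G := by
  classical
  obtain ⟨k, hk, t, ht, hF⟩ := exists_t hG h2
  obtain ⟨m, f, hm, hm', hf, hu⟩ := exists_uniq ht hF h2 h3
  obtain ⟨hb1, hb2⟩ := mod_bd (n := n) (c := c) (by omega)
  refine ⟨hc, m, by omega, hm'.trans hb2, ?_⟩
  have hdet := adx_det_of_uniq (hg G t) hf hu
  have h3 : (adx (hg G t) (wE m) (RatFunc.X : RatFunc ℚ)).rank = n := by
    have := Matrix.rank_of_isUnit (adx (hg G t) (wE m) (RatFunc.X : RatFunc ℚ))
      ((Matrix.isUnit_iff_isUnit_det _).2 (isUnit_iff_ne_zero.2 hdet))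
    rwa [Fintype.card_fin] at this
  have h4 := rank_near (adx (hg G t) (wE m) (RatFunc.X : RatFunc ℚ))
    (adx G (wE m) (RatFunc.X : RatFunc ℚ)) F (fun u hu v hv => by
      unfold adx
      rw [Matrix.of_apply, Matrix.of_apply]
      have hu' := (out_iff hF).1 hu
      have hv' := (out_iff hF).1 hv
      by_cases h : G.Adj u v
      · rw [if_pos h, if_pos (show (hg G t).Adj u v from Or.inl ⟨h, hu', hv'⟩)]
      · rw [if_neg h, if_neg (fun h5 : (hg G t).Adj u v => by
          rcases h5 with h5 | ⟨_, p, h5, _⟩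
          · exact h h5.1
          · exact hu' p h5)])
  have h5 : 2 ≤ Nat.log 2 n := by
    have : Nat.log 2 4 ≤ Nat.log 2 n := Nat.log_mono_right hn
    have e : Nat.log 2 4 = 2 := by
      rw [show 4 = 2 ^ 2 from rfl, Nat.log_pow (by norm_num)]
    omega
  have h6 : 4 * (Nat.log 2 n) ^ c ≤ (Nat.log 2 n) ^ (c + 2) := by
    rw [pow_add, mul_comm]
    refine Nat.mul_le_mul_left _ ?_
    nlinarith
  omega

end Pool.Agent.UN
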