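import Pool.Agent.Lib.MP_0087d5_lc.FN.Nice
import Pool.Agent.Lib.MP_0087d5_lc.LF.Sub

/-!
# Few nice cycles after deletion of few vertices: a unique perfect matching of least weight
-/

set_option autoImplicit false
set_option linter.all false

namespace Pool.Agent.UN

open Relation Pool.Agent.PMNC Pool.Agent.UPM Pool.Agent.AUG Pool.Agent.LF Pool.Agent.FNC Pool.Agent.FRC.Uni

variable {n k : ℕ} {G : SimpleGraph (Fin n)} {t : TT k → Fin n} {F : Finset (Fin n)}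

/-- If `G - F` has a perfect matching and at most `n ^ c` nice cycles, and `F` is the range of `t`, then for some modulus `m` the graph `hg G t` (`G - F` and a perfect
matching on `F`) has only one perfect matching of least weight. -/
theorem exists_uniq {c : ℕ} (ht : Function.Injective t) (hF : ∀ v, v ∈ F ↔ ∃ p, t p = v)
    (h2 : ∃ M : (G.induce {v | v ∉ F}).Subgraph, M.IsPerfectMatching)
    (h3 : (niceCycles (G.induce {v | v ∉ F})).ncard ≤ n ^ c) :
    ∃ (m : ℕ) (f : Fin n → Fin n), 2 ≤ m ∧ m ≤ 2 * ((n ^ 2 + n) * n ^ c + 4) ∧ IsM (hg G t).Adj f ∧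
      ∀ g, IsM (hg G t).Adj g → tw (wE m) g = tw (wE m) f → g = f := by
  classical
  obtain ⟨M2, hM2⟩ := h2
  obtain ⟨f₀, hf₀, -⟩ := exists_fun M2 hM2
  obtain ⟨m, hm2, hm, hsep⟩ := exists_mod_nice (fun v : {v | v ∉ F} => (v : Fin n))
    Subtype.val_injective h3
  obtain ⟨b, hb, hmin⟩ := exists_min_nice (H := G.induce {v | v ∉ F})
    (fun u v => wE m (u : Fin n) (v : Fin n)) hf₀ hsep
  obtain ⟨f, hf, hfb⟩ := ext_map ht hF (f' := b) ⟨hb.invol, hb.adj⟩
  refine ⟨m, f, hm2, hm, hf, fun g hg hgw => ?_⟩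
  obtain ⟨b', hb', hgb'⟩ := res_map hF hg
  have hout : ∀ v ∈ F, g v = f v := by
    intro v hv
    obtain ⟨p, rfl⟩ := (hF v).1 hv
    rw [hg_pair ht hg, hg_pair ht hf]
  have hspl : ∀ φ : Fin n → Fin n, tw (wE m) φ =
      ∑ v ∈ F, wE m v (φ v) + ∑ v : {v | v ∉ F}, wE m (v : Fin n) (φ v) := by
    intro φ
    unfold tw
    rw [← Finset.sum_filter_add_sum_filter_not Finset.univ (fun v => v ∈ F)]
    refine congrArg₂ (· + ·) ?_ ?_
    · refine Finset.sum_congr ?_ fun _ _ => rfl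
      ext v
      simp
    · exact Finset.sum_subtype (p := fun v => v ∈ {v | v ∉ F}) (Finset.univ.filter fun v => ¬ v ∈ F)
        (by simp) (fun v => wE m v (φ v))
  have hbb : b' = b := by
    by_contra hne
    have h4 := hmin b' ⟨hb'.1, hb'.2⟩ hne
    rw [hspl g, hspl f] at hgw
    have h5 : ∑ v ∈ F, wE m v (g v) = ∑ v ∈ F, wE m v (f v) :=
      Finset.sum_congr rfl fun v hv => by rw [hout v hv]
    have h6 : ∑ v : {v | v ∉ F}, wE m (v : Fin n) (g v) =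
        ∑ v : {v | v ∉ F}, wE m (v : Fin n) (b' v : Fin n) :=
      Finset.sum_congr rfl fun v _ => by rw [hgb']
    have h7 : ∑ v : {v | v ∉ F}, wE m (v : Fin n) (f v) =
        ∑ v : {v | v ∉ F}, wE m (v : Fin n) (b v : Fin n) :=
      Finset.sum_congr rfl fun v _ => by rw [hfb]
    rw [h5, h6, h7] at hgw
    have h8 := Nat.add_left_cancel hgw
    exact absurd h8 h4.ne'
  funext v
  by_cases hv : v ∈ F
  · exact hout v hv
  · have e1 := hgb' ⟨v, hv⟩
    have e2 := hfb ⟨v, hv⟩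
    rw [hbb] at e1
    exact e1.symm.trans e2

/-- a bound for the modulus -/
theorem mod_bd {c : ℕ} (hn : 2 ≤ n) : n * (2 * ((n ^ 2 + n) * n ^ c + 4)) < n ^ (2 * (c + 1) + 8) ∧
    2 * ((n ^ 2 + n) * n ^ c + 4) ≤ n ^ (c + 7) := by
  have h4 : 2 * ((n ^ 2 + n) * n ^ c + 4) < n ^ (c + 7) := by
    have hn1 : 1 ≤ n := by omega
    have h5 : n ^ 2 + n ≤ n ^ 3 := by
      have h6 : n + 1 ≤ n ^ 2 := by nlinarith
      calc n ^ 2 + n = n * (n + 1) := by ring
        _ ≤ n * n ^ 2 := Nat.mul_le_mul_left n h6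
        _ = n ^ 3 := by ring
    have h6 : (n ^ 2 + n) * n ^ c ≤ n ^ (c + 3) := by
      calc (n ^ 2 + n) * n ^ c ≤ n ^ 3 * n ^ c := Nat.mul_le_mul_right _ h5
        _ = n ^ (c + 3) := by rw [← pow_add, add_comm]
    have h7 : n ^ (c + 7) = n ^ (c + 3) * n ^ 4 := by rw [← pow_add]
    have h8 : 16 ≤ n ^ 4 := by
      calc 16 = 2 ^ 4 := by norm_num
        _ ≤ n ^ 4 := Nat.pow_le_pow_left hn 4
    have h9 : 8 ≤ n ^ (c + 3) := by
      calc 8 = 2 ^ 3 := by norm_num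
        _ ≤ n ^ 3 := Nat.pow_le_pow_left hn 3
        _ ≤ n ^ (c + 3) := Nat.pow_le_pow_right hn1 (by omega)
    have h10 : n ^ (c + 3) * 16 ≤ n ^ (c + 3) * n ^ 4 := Nat.mul_le_mul_left _ h8
    omega
  refine ⟨?_, h4.le⟩
  calc n * (2 * ((n ^ 2 + n) * n ^ c + 4)) < n * n ^ (c + 7) := Nat.mul_lt_mul_of_pos_left h4 (by omega)
    _ = n ^ (c + 8) := by ring
    _ ≤ n ^ (2 * (c + 1) + 8) := Nat.pow_le_pow_right (by omega) (by omega)

/-- `exists_cM` for few nice cycles -/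
theorem exists_cM_nice {c : ℕ} (hn : 2 ≤ n) (ht : Function.Injective t) (hF : ∀ v, v ∈ F ↔ ∃ p, t p = v)
    (h2 : ∃ M : (G.induce {v | v ∉ F}).Subgraph, M.IsPerfectMatching)
    (h3 : (niceCycles (G.induce {v | v ∉ F})).ncard ≤ n ^ c) :
    ∃ (m a : Sc (c + 1) n) (f : Fin n → Fin n), IsM (hg G t).Adj f ∧ ∀ x y, cM (hg G t) m a x y ↔ y = f x := by
  obtain ⟨m₀, f, hm, hm', hf, hu⟩ := exists_uniq ht hF h2 h3
  obtain ⟨hb1, hb2⟩ := mod_bd (c := c) hn
  have hdim := dim_Sc (c + 1)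
  obtain ⟨N, rfl⟩ : ∃ N, n = N + 1 := ⟨n - 1, by omega⟩
  obtain ⟨m, hmm⟩ := nv_surj (S := Sc (c + 1)) (n := N + 1) (m := m₀) (by
    rw [hdim]
    refine lt_of_le_of_lt ?_ hb1
    refine hm'.trans ?_
    exact Nat.le_mul_of_pos_left _ (by omega))
  have h6 : tw (wE m₀) f < (N + 1) ^ dim (Sc (c + 1)) := by
    rw [hdim]
    refine lt_of_le_of_lt ?_ hb1
    unfold tw
    calc ∑ i, wE m₀ i (f i) ≤ ∑ _i : Fin (N + 1), m₀ :=
          Finset.sum_le_sum fun i _ => by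
            unfold wE
            rw [if_pos hm]
            exact (Nat.mod_lt _ (by omega)).le
      _ = (N + 1) * m₀ := by simp
      _ ≤ _ := Nat.mul_le_mul_left _ hm'
  obtain ⟨a, ha⟩ := nv_surj (S := Sc (c + 1)) (n := N + 1) h6
  refine ⟨m, a, f, hf, fun x y => ?_⟩
  unfold cM
  rw [hmm]
  exact cnW_iff dn_nv (fun x y h => h.symm) (fun x => (hg G t).irrefl) (wE_comm m₀) hf ha.symm
    (fun g hg hg' => hu g hg (by rw [hg', ha]))

end Pool.Agent.UN
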